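import Pool.Agent.H29.LG.Targets
import Pool.Agent.H7.RQ.KEB

set_option autoImplicit false

/-!
# MP_c65535_nt, all radicals: row KEBL of the board `lgx_modules`
-/

namespace Pool.Agent.H10.LG

open NumberField Height Finset Polynomial Pool.Agent.H24.RD Pool.Agent.H23.RDD Pool.Agent.H29.RQ
  Pool.Agent.H29.SX Pool.Agent.H29.LG Pool.Agent.H7.RQ

private theorem dch_mul {M : Type} [Field M] (v : AbsoluteValue M ℝ) (g : M) (hg : v g = 1)
    (x y : M) : dch v (x * g) (y * g) = dch v x y := by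
  unfold dch
  rw [← sub_mul, map_mul, map_mul, map_mul, hg, mul_one, mul_one, mul_one]

theorem pf_KEBL (h1 : T_PRF) (h2 : T_POWQ) (h3 : T_ORB) (h4 : T_PFX) : T_KEBL := by
  classical
  intro F E M _ _ _ _ _ _ _ _ _ _ _ _ _ _ p hp V T d hT hd hV hcomm b g hb hg hs hred hval H hH
  have hqpos : 0 < p := hp.pos
  have hp1 : (1 : ℝ) ≤ p := by exact_mod_cast hp.one_lt.le
  -- the subgroup `B`
  let B : Subgroup (E ≃ₐ[F] E) :=
    { carrier := {w | w ∈ V ∧ ∃ σ : M ≃ₐ[F] M, Lf w σ ∧ (σ b) ^ p = b ^ p}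
      mul_mem' := by
        rintro w w' ⟨hw, σ, hσ, h⟩ ⟨hw', σ', hσ', h'⟩
        refine ⟨V.mul_mem hw hw', σ * σ', hσ.mul hσ', ?_⟩
        rw [AlgEquiv.mul_apply, ← map_pow, h', map_pow, h]
      one_mem' := ⟨V.one_mem, 1, Lf.one, rfl⟩
      inv_mem' := by
        rintro w ⟨hw, σ, hσ, h⟩
        refine ⟨V.inv_mem hw, σ⁻¹, hσ.inv, ?_⟩
        have h8 := congrArg (fun z => σ⁻¹ z) h
        simp only [map_pow] at h8
        rw [← AlgEquiv.mul_apply, inv_mul_cancel, AlgEquiv.one_apply] at h8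
        exact h8.symm }
  have hBmem : ∀ w, w ∈ B ↔ w ∈ V ∧ ∃ σ : M ≃ₐ[F] M, Lf w σ ∧ (σ b) ^ p = b ^ p :=
    fun w => Iff.rfl
  have hBV : B ≤ V := fun w hw => hw.1
  refine ⟨B, hBV, fun w hw => hw.2, ?_⟩
  -- powers
  have hpw : ∀ x y : M, (x * g) ^ p = (y * g) ^ p → x ^ p = y ^ p := by
    intro x y h
    rw [mul_pow, mul_pow] at h
    exact mul_right_cancel₀ (pow_ne_zero _ hg) h
  let Y : (E ≃ₐ[F] E) → Finset M := fun t => (Orb b t).image (fun x => (x * g) ^ p)
  have hYmem : ∀ t x, x ∈ Y t ↔ ∃ σ : M ≃ₐ[F] M, Lf t σ ∧ (σ b * g) ^ p = x := by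
    intro t x
    simp only [Y, Finset.mem_image]
    constructor
    · rintro ⟨y, hy, rfl⟩
      obtain ⟨σ, hσ, rfl⟩ := (mem_Orb _ _ _).1 hy
      exact ⟨σ, hσ, rfl⟩
    · rintro ⟨σ, hσ, rfl⟩
      exact ⟨σ b, (mem_Orb _ _ _).2 ⟨σ, hσ, rfl⟩, rfl⟩
  have hinj : ∀ t : E ≃ₐ[F] E, ∀ x ∈ Orb b t, ∀ y ∈ Orb b t,
      (x * g) ^ p = (y * g) ^ p → x = y := by
    intro t x hx y hy hxy
    obtain ⟨σ, hσ, rfl⟩ := (mem_Orb _ _ _).1 hx
    obtain ⟨σ', hσ', rfl⟩ := (mem_Orb _ _ _).1 hy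
    have h8 := hpw _ _ hxy
    have h9 : Lf (1 : E ≃ₐ[F] E) (σ⁻¹ * σ') := by
      have := hσ.inv.mul hσ'
      rwa [inv_mul_cancel] at this
    have h10 : ((σ⁻¹ * σ') b) ^ p = b ^ p := by
      rw [AlgEquiv.mul_apply, ← map_pow, ← h8, map_pow, ← AlgEquiv.mul_apply, inv_mul_cancel,
        AlgEquiv.one_apply]
    have h11 := hred (σ⁻¹ * σ') h9.one_fix h10
    have h12 := congrArg (fun z => σ z) h11
    simp only [← AlgEquiv.mul_apply, mul_inv_cancel_left] at h12
    exact h12.symm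
  -- the finite set `X`
  let X : Finset M := (Finset.univ.filter (fun t : E ≃ₐ[F] E => t ∈ V)).biUnion Y
  have hX : ∀ x, x ∈ X ↔ ∃ t ∈ V, x ∈ Y t := by
    intro x
    simp only [X, Finset.mem_biUnion, Finset.mem_filter, Finset.mem_univ, true_and]
  have hN1 : 1 ≤ X.card := by
    rw [Nat.one_le_iff_ne_zero, Finset.card_ne_zero]
    obtain ⟨σ, hσ⟩ := exists_lift (M := M) (1 : E ≃ₐ[F] E)
    exact ⟨(σ b * g) ^ p, (hX _).2 ⟨1, V.one_mem, (hYmem _ _).2 ⟨σ, hσ, rfl⟩⟩⟩
  have hN2 : X.card ≤ T * d := by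
    obtain ⟨s, hsd, hsσ⟩ := hs
    refine (Finset.card_biUnion_le_card_mul _ _ d fun t _ => ?_).trans ?_
    · refine Finset.card_image_le.trans ((card_Orb b t).trans (le_trans ?_ hsd))
      refine Finset.card_le_card fun x hx => ?_
      obtain ⟨σ, hσ, rfl⟩ := (mem_Orb _ _ _).1 hx
      exact hsσ σ hσ.one_fix
    · refine Nat.mul_le_mul_right d (le_trans (le_of_eq ?_) hV)
      rw [← Fintype.card_subtype, ← Nat.card_eq_fintype_card]
  obtain ⟨P, hP, hPs, hPX⟩ := h4 M p hp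
  have hgain : ∀ v ∈ P, ∏ x ∈ X, ∏ y ∈ X.erase x, dch v.1 x y ≤
      v.1 (p : M) ^ ((X.card : ℝ) * ((B.relIndex V : ℝ) - 1)) := by
    intro v hv
    have hvp := (hP v).1 hv
    have hna : IsNonarchimedean v.1 := fun x y => FinitePlace.add_le v x y
    have hv0 : 0 < v.1 (p : M) := by
      refine v.1.pos ?_
      exact_mod_cast hp.ne_zero
    obtain ⟨hvg, hvt⟩ := hval v hvp
    refine h3 (E ≃ₐ[F] E) V B V hBV le_rfl hcomm M (fun x y => dch v.1 x y) (v.1 (p : M)) hv0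
      hvp.le (fun x y => ⟨dch_nonneg v.1 x y, dch_le_one v.1 hna x y⟩) Y ?_ ?_ ?_ X hX
    · intro s hs' t ht hst
      obtain ⟨-, r, hr, hrb⟩ := (hBmem _).1 hst
      ext x
      rw [hYmem, hYmem]
      constructor
      · rintro ⟨σ, hσ, rfl⟩
        refine ⟨σ * r, ?_, ?_⟩
        · have := hσ.mul hr
          rwa [mul_inv_cancel_left] at this
        · rw [mul_pow, mul_pow, AlgEquiv.mul_apply, ← map_pow, hrb, map_pow]
      · rintro ⟨σ, hσ, rfl⟩
        refine ⟨σ * r⁻¹, ?_, ?_⟩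
        · have := hσ.mul hr.inv
          rwa [mul_inv_rev, inv_inv, mul_inv_cancel_left] at this
        · have h8 : (r⁻¹ b) ^ p = b ^ p := by
            have h9 := congrArg (fun z => r⁻¹ z) hrb
            simp only [map_pow] at h9
            rw [← AlgEquiv.mul_apply, inv_mul_cancel, AlgEquiv.one_apply] at h9
            exact h9.symm
          rw [mul_pow, mul_pow, AlgEquiv.mul_apply, ← map_pow, h8, map_pow]
    · intro s hs' t ht hst
      rw [Finset.disjoint_left]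
      intro x hx hx'
      obtain ⟨σ, hσ, rfl⟩ := (hYmem _ _).1 hx
      obtain ⟨σ', hσ', h8⟩ := (hYmem _ _).1 hx'
      refine hst ((hBmem _).2 ⟨V.mul_mem (V.inv_mem hs') ht, σ⁻¹ * σ', hσ.inv.mul hσ', ?_⟩)
      rw [AlgEquiv.mul_apply, ← map_pow, hpw _ _ h8, map_pow, ← AlgEquiv.mul_apply,
        inv_mul_cancel, AlgEquiv.one_apply]
    · intro t ht w hw _ x hx
      obtain ⟨f, hf⟩ := exists_poly (F := F) (E := E) b
      have hp0 : (0 : ℝ) < p := by exact_mod_cast hqpos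
      have hδ0 : 0 < 1 / (p : ℝ) := by positivity
      have hε0 : 0 < v.1 (p : M) ^ (1 / (p : ℝ)) := Real.rpow_pos_of_pos hv0 _
      have hε1 : v.1 (p : M) ^ (1 / (p : ℝ)) < 1 := Real.rpow_lt_one hv0.le hvp hδ0
      have hε2 : v.1 (p : M) ≤ v.1 (p : M) ^ (1 / (p : ℝ)) := by
        conv_lhs => rw [← Real.rpow_one (v.1 (p : M))]
        refine Real.rpow_le_rpow_of_exponent_ge hv0 hvp.le ?_
        rw [div_le_one hp0]
        exact hp1
      have hmap : ((f.map (t : E →+* E)).map (((w : E ≃ₐ[F] E) : E ≃+* E) : E →+* E)).map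
          (algebraMap E M) = ∏ y ∈ Orb b (w * t), (Polynomial.X - C y) := by
        rw [← map_poly b hf (w * t)]
        simp only [Polynomial.map_map]
        exact congrArg (fun r => Polynomial.map r f) (RingHom.ext fun y => rfl)
      have h10 := h1 E M v.1 hna p 0 hp _ hε0 hε1 hε2 ((w : E ≃ₐ[F] E) : E ≃+* E)
        (fun x => (hvt w hw x).1) (fun x hx => by
          rw [pow_zero, pow_one]
          exact (hvt w hw x).2 hx) (f.map (t : E →+* E)) (Orb b t) (Orb b (w * t))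
        (map_poly b hf t) hmap
      obtain ⟨x', hx', rfl⟩ := Finset.mem_image.1 hx
      have h11 := h10 x' hx'
      rw [pow_zero, pow_one] at h11
      have h12 := h2 M v.1 hna p hp hvp (1 / (p : ℝ)) 1 0 hδ0 (by
        rw [pow_one, mul_one_div, div_self (ne_of_gt hp0)])
        (x' * g) ((Orb b (w * t)).image (fun y => y * g)) (by
          rw [Finset.prod_image (fun y _ z _ hyz => mul_right_cancel₀ hg hyz)]
          refine le_trans (le_of_eq ?_) h11
          exact Finset.prod_congr rfl fun y _ => dch_mul v.1 g hvg x' y)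
      rw [Finset.prod_image (fun y _ z _ hyz => mul_right_cancel₀ hg hyz), add_zero, zero_add,
        pow_one, pow_one] at h12
      change ∏ y ∈ (Orb b (w * t)).image (fun x => (x * g) ^ p), dch v.1 ((x' * g) ^ p) y ≤ _
      rw [Finset.prod_image fun x hx y hy => hinj (w * t) x hx y hy]
      exact h12
  have h8 := hPX X (fun _ => (X.card : ℝ) * ((B.relIndex V : ℝ) - 1)) hgain
  have hN0 : (0 : ℝ) < X.card := by exact_mod_cast hN1
  have hH0 : 0 ≤ H := (zero_le_logHeight₁ _).trans (hH 1)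
  have hsumX : ∑ x ∈ X, logHeight₁ x ≤ X.card * (p * H) := by
    rw [← nsmul_eq_mul]
    refine Finset.sum_le_card_nsmul _ _ _ fun x hx => ?_
    obtain ⟨t, -, hxt⟩ := (hX x).1 hx
    obtain ⟨σ, -, rfl⟩ := (hYmem _ _).1 hxt
    rw [logHeight₁_pow]
    exact mul_le_mul_of_nonneg_left (hH σ) (Nat.cast_nonneg _)
  set S : ℝ := Module.finrank ℚ M * (((B.relIndex V : ℝ) - 1) * Real.log p) with hS
  have h9 : ∑ v ∈ P, (- Real.log (v.1 (p : M))) *
      ((X.card : ℝ) * ((B.relIndex V : ℝ) - 1)) = X.card * S := by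
    rw [← Finset.sum_mul, hPs, hS]
    ring
  rw [h9] at h8
  have h10 : X.card * S ≤ X.card * (Module.finrank ℚ M * (2 * Real.log X.card) +
      2 * (X.card * (p * H))) := by
    calc X.card * S ≤ _ := h8
      _ ≤ Module.finrank ℚ M * (2 * X.card * Real.log X.card) +
          2 * X.card * (X.card * (p * H)) := by
        gcongr
      _ = _ := by ring
  have h11 := le_of_mul_le_mul_left h10 hN0
  have hN3 : (X.card : ℝ) ≤ d * T := by
    have : X.card ≤ d * T := by rw [mul_comm]; exact hN2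
    exact_mod_cast this
  refine h11.trans ?_
  have h12 : Real.log X.card ≤ Real.log (d * T) := Real.log_le_log hN0 hN3
  have h13 : (X.card : ℝ) * (p * H) ≤ (d * T) * (p * H) :=
    mul_le_mul_of_nonneg_right hN3 (by positivity)
  have h14 : (Module.finrank ℚ M : ℝ) * (2 * Real.log X.card) ≤
      Module.finrank ℚ M * (2 * Real.log (d * T)) := by gcongr
  have h15 : ((d : ℝ) * T) * (p * H) = (d * T * p) * H := by
    ring
  rw [h15] at h13
  linarith

end Pool.Agent.H10.LG
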